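import Pool.Agent.helper82.SW.SpecW

/-!
# sp:WPRB  the probability of the crossing
-/

namespace Pool.Agent.helper82.SW

theorem PRB (hBR : BR_stmt) (hAVG : AVG_stmt) : PRB_stmt := by
  intro i
  rw [hAVG.2]
  congr 1
  ext b
  rw [hBR i b]
  rfl

end Pool.Agent.helper82.SW
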